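import Pool.Agent.AT5.Stmts1
import Pool.Agent.Helper25_K9.PRG
import Pool.Agent.Helper25_K9.ADA
import Pool.Agent.Helper50_PP.Blk3

/-!
# Squad AT5, row NZM: a character of the block which is not orthogonal, on the regular elements, to
any character of the block
-/

open scoped BigOperators

noncomputable section

namespace Pool.Agent.PP.T5.H23

open Pool.Agent.Helper51_AWC Pool.Agent.Helper79_WRA Pool.Agent.PP Pool.Agent.PP.KF
open Pool.Agent.PP.K9 Pool.Agent.PP.K9.H97 Pool.Agent.PP.H75 Pool.Agent.PP.T3 Pool.Agent.PP.T2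
open Pool.Agent.PP.K9.H25

attribute [local instance] Ideal.Quotient.field

/-- natural numbers prime to `ℓ` are not in the maximal ideal -/
theorem cast_notMem {ℓ q : ℕ} (hq : ℓ.Coprime q) {M : Ideal (integralClosure ℤ ℂ)}
    [hM' : M.IsMaximal] (hM : (ℓ : integralClosure ℤ ℂ) ∈ M) : (q : integralClosure ℤ ℂ) ∉ M := by
  intro h
  obtain ⟨a, b, hab⟩ := Nat.isCoprime_iff_coprime.2 hq
  apply hM'.ne_top
  rw [Ideal.eq_top_iff_one]
  have h1 : (1 : integralClosure ℤ ℂ) = (a : integralClosure ℤ ℂ) * (ℓ : integralClosure ℤ ℂ) +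
      (b : integralClosure ℤ ℂ) * (q : integralClosure ℤ ℂ) := by
    exact_mod_cast hab.symm
  rw [h1]
  exact M.add_mem (M.mul_mem_left _ hM) (M.mul_mem_left _ h)

theorem el_inv {G : Type} [Group G] {ℓ : ℕ} {y : G} (h : El ℓ y) : El ℓ y⁻¹ := by
  obtain ⟨n, hn⟩ := h
  exact ⟨n, by rw [inv_pow, hn, inv_one]⟩

theorem el_reg {G : Type} [Group G] {ℓ : ℕ} [Fact ℓ.Prime] {y : G} (h : El ℓ y) (hr : Reg ℓ y) :
    y = 1 := by
  obtain ⟨n, hn⟩ := h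
  have h1 : orderOf y ∣ ℓ ^ n := orderOf_dvd_of_pow_eq_one hn
  have h2 : (orderOf y).Coprime (ℓ ^ n) := Nat.Coprime.pow_right n hr
  exact orderOf_eq_one_iff.1 (Nat.eq_one_of_dvd_coprimes h2 dvd_rfl h1)

theorem el_one {G : Type} [Group G] {ℓ : ℕ} : El ℓ (1 : G) := ⟨0, one_pow _⟩

theorem reg_conj {G : Type} [Group G] {ℓ : ℕ} (x y : G) : Reg ℓ (y * x * y⁻¹) ↔ Reg ℓ x := by
  unfold Reg
  have : orderOf (y * x * y⁻¹) = orderOf x :=
    orderOf_injective (MulAut.conj y).toMonoidHom (MulAut.conj y).injective x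
  rw [this]

open Classical in
theorem nzm (sei : SeiStmt) (wbo : K9.WboStmt) : NzmStmt := by
  intro ℓ _ M _ hM H _ _ b hb
  have := Fintype.ofFinite H
  have hℓ : ℓ.Prime := Fact.out
  have hc : (Fintype.card H : ℂ) ≠ 0 := by exact_mod_cast Fintype.card_ne_zero
  obtain ⟨P⟩ : Nonempty (Sylow ℓ H) := inferInstance
  have hs := (sei ℓ H P).2
  obtain ⟨q, hq⟩ : ∃ q, q = (P : Subgroup H).index := ⟨_, rfl⟩
  rw [← hq] at hs
  have hq1 : ℓ.Coprime q := by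
    rw [hq]
    exact (Nat.Prime.coprime_iff_not_dvd hℓ).2 P.not_dvd_index
  -- the indicator function of the `ℓ`-elements
  obtain ⟨pi, hpi⟩ : ∃ pi : H → ℂ, pi = fun h => if El ℓ h then 1 else 0 := ⟨_, rfl⟩
  obtain ⟨a, ha⟩ : ∃ a : (H → ℂ) → ℂ, a = fun ψ => ipn pi ψ := ⟨_, rfl⟩
  have haR : ∀ ψ ∈ Irr H, a ψ ∈ RM M := by
    intro ψ hψ
    obtain ⟨m, hm⟩ := zi_ipn hs (AddSubgroup.subset_closure hψ : ψ ∈ ZI H)
    have h1 : (q : ℂ) * a ψ = m := by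
      rw [← hm, ha, hpi]
      beta_reduce
      rw [ipn_eq, ipn_eq, mul_left_comm, Finset.mul_sum]
      congr 1
      refine Finset.sum_congr rfl fun x _ => ?_
      by_cases hx : El ℓ x
      · rw [if_pos hx, if_pos hx, one_mul]
      · rw [if_neg hx, if_neg hx, zero_mul, mul_zero]
    exact ⟨(q : integralClosure ℤ ℂ), (m : integralClosure ℤ ℂ), cast_notMem hq1 hM, by
      rw [← map_natCast (algebraMap (integralClosure ℤ ℂ) ℂ), ← map_intCast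
        (algebraMap (integralClosure ℤ ℂ) ℂ)] at h1
      exact h1⟩
  obtain ⟨S, hS⟩ : ∃ S : Finset (H → ℂ), S = (irrE_finite M b).toFinset := ⟨_, rfl⟩
  have hSm : ∀ ψ, ψ ∈ S ↔ ψ ∈ IrrE M b := fun ψ => by rw [hS, Set.Finite.mem_toFinset]
  -- the values at the regular elements
  have hval : ∀ x : H, Reg ℓ x → ∑ ψ ∈ S, a ψ * ψ x⁻¹ = eh M b x := by
    intro x hx
    have h1 : ∀ ψ ∈ S, a ψ * ψ x⁻¹ = ∑ c : H, (Fintype.card H : ℂ)⁻¹ *
        (if El ℓ c then ψ x⁻¹ * ψ c⁻¹ else 0) := by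
      intro ψ hψ
      rw [ha, hpi]
      simp only [ipn_eq]
      rw [mul_assoc, Finset.sum_mul, Finset.mul_sum]
      refine Finset.sum_congr rfl fun c _ => ?_
      congr 1
      by_cases hcl : El ℓ c
      · rw [if_pos hcl, if_pos hcl, one_mul, H94.irr_star ((hSm ψ).1 hψ).1, mul_comm]
      · rw [if_neg hcl, if_neg hcl, zero_mul, zero_mul]
    rw [Finset.sum_congr rfl h1, Finset.sum_comm, Finset.sum_eq_single_of_mem (1 : H)
      (Finset.mem_univ _)]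
    · rw [eh_eq, ← hS, Finset.mul_sum]
      refine Finset.sum_congr rfl fun ψ _ => ?_
      rw [if_pos el_one, inv_one, mul_comm (ψ 1)]
    · intro c _ hc1
      rw [← Finset.mul_sum]
      by_cases hcl : El ℓ c
      · have h2 : ¬ Reg ℓ c⁻¹ := fun h => hc1 (inv_eq_one.1 (el_reg (el_inv hcl) h))
        have h3 := wbo ℓ M hM H b hb.1 x c⁻¹ hx h2
        rw [finsum_mem_eq_finite_toFinset_sum _ (irrE_finite M b), ← hS] at h3
        have h4 : ∑ ψ ∈ S, (if El ℓ c then ψ x⁻¹ * ψ c⁻¹ else 0) = ∑ ψ ∈ S, ψ x⁻¹ * ψ c⁻¹ :=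
          Finset.sum_congr rfl fun ψ _ => if_pos hcl
        rw [h4, h3, mul_zero]
      · have h4 : ∑ ψ ∈ S, (if El ℓ c then ψ x⁻¹ * ψ c⁻¹ else 0) = 0 :=
          Finset.sum_eq_zero fun ψ _ => if_neg hcl
        rw [h4, mul_zero]
  -- the class functions
  obtain ⟨F, hF⟩ : ∃ F : (H → ℂ) → H → integralClosure ℤ ℂ, ∀ ψ ∈ Irr H, ∀ x,
      ((F ψ x : integralClosure ℤ ℂ) : ℂ) = if Reg ℓ x then ψ x⁻¹ else 0 := by
    refine ⟨fun ψ x => if h : ψ ∈ Irr H ∧ Reg ℓ x then ⟨ψ x⁻¹, irr_integral h.1 x⁻¹⟩ else 0, ?_⟩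
    intro ψ hψ x
    beta_reduce
    by_cases hx : Reg ℓ x
    · rw [dif_pos ⟨hψ, hx⟩, if_pos hx]
    · rw [dif_neg (fun h => hx h.2), if_neg hx]
      rfl
  have hFc : ∀ ψ ∈ Irr H, H50.Cl (F ψ) := by
    intro ψ hψ x y
    apply Subtype.ext
    rw [hF ψ hψ, hF ψ hψ]
    have h1 : (y * x * y⁻¹)⁻¹ = y * x⁻¹ * y⁻¹ := by group
    rw [h1, irr_conj hψ]
    simp only [reg_conj]
  obtain ⟨g, hg⟩ : ∃ g : (H → ℂ) → (H → ℂ) → ℂ, g = fun ψ κ =>
      H50.om (fun x => ((F ψ x : integralClosure ℤ ℂ) : ℂ)) κ := ⟨_, rfl⟩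
  have hgr : ∀ ψ ∈ Irr H, ∀ κ ∈ Irr H, κ 1 * g ψ κ = (Fintype.card H : ℂ) * rip ℓ κ ψ := by
    intro ψ hψ κ hκ
    have hκ1 : κ 1 ≠ 0 := by
      obtain ⟨d, hd0, hd⟩ := irr_one hκ
      rw [hd]
      exact_mod_cast hd0.ne'
    rw [hg, rip, ← mul_assoc, Nat.card_eq_fintype_card, mul_inv_cancel₀ hc, one_mul,
      finsum_eq_sum_of_fintype]
    simp only [H50.om]
    rw [mul_div_cancel₀ _ hκ1]
    refine Finset.sum_congr rfl fun x _ => ?_
    rw [hF ψ hψ, finsum_eq_if]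
    by_cases hx : Reg ℓ x
    · rw [if_pos hx, if_pos hx, H94.irr_star hψ, mul_comm]
    · rw [if_neg hx, if_neg hx, zero_mul]
  have hgred : ∀ ψ ∈ Irr H, ∀ κ ∈ Irr H,
      res M (fun t => Ideal.Quotient.mk M (F ψ t)) κ = rr M (g ψ κ) ∧ g ψ κ ∈ RM M := by
    intro ψ hψ κ hκ
    obtain ⟨h1, h2⟩ := H50.res_irr (M := M) (F ψ) (hFc ψ hψ) hκ
    refine ⟨?_, ?_⟩
    · rw [h1, hg, rr_of_int h2]
    · rw [hg]
      exact RM_of_int h2
  -- the sum is one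
  have hone : ∀ κ ∈ IrrE M b, ∑ ψ ∈ S, a ψ * g ψ κ = 1 := by
    intro κ hκ
    have hκ1 : κ 1 ≠ 0 := by
      obtain ⟨d, hd0, hd⟩ := irr_one hκ.1
      rw [hd]
      exact_mod_cast hd0.ne'
    have h1 := eh_chv M b hκ.1
    rw [if_pos hκ] at h1
    apply mul_left_cancel₀ hκ1
    rw [mul_one, Finset.mul_sum]
    have h2 : ∀ ψ ∈ S, κ 1 * (a ψ * g ψ κ) =
        ∑ x : H, if Reg ℓ x then a ψ * (ψ x⁻¹ * κ x) else 0 := by
      intro ψ hψ
      have hψ1 := ((hSm ψ).1 hψ).1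
      rw [mul_left_comm, hgr ψ hψ1 κ hκ.1, rip, ← mul_assoc (Fintype.card H : ℂ),
        Nat.card_eq_fintype_card, mul_inv_cancel₀ hc, one_mul, finsum_eq_sum_of_fintype,
        Finset.mul_sum]
      refine Finset.sum_congr rfl fun x _ => ?_
      rw [finsum_eq_if]
      by_cases hx : Reg ℓ x
      · rw [if_pos hx, if_pos hx, H94.irr_star hψ1, mul_comm (κ x)]
      · rw [if_neg hx, if_neg hx, mul_zero]
    rw [Finset.sum_congr rfl h2, Finset.sum_comm]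
    refine Eq.trans (Finset.sum_congr rfl fun x _ => ?_) h1
    by_cases hx : Reg ℓ x
    · rw [← hval x hx, Finset.sum_mul]
      refine Finset.sum_congr rfl fun ψ _ => ?_
      rw [if_pos hx]
      ring
    · rw [eh_sing wbo ℓ M hM b hb.1 x hx, zero_mul]
      exact Finset.sum_eq_zero fun ψ _ => if_neg hx
  -- the choice of the character
  obtain ⟨κ₁, hκ₁, hκ₂⟩ := H50.exists_irr_res hb.1 hb.2.1
  have hex : ∃ ψ ∈ S, res M (fun t => Ideal.Quotient.mk M (F ψ t)) κ₁ ≠ 0 := by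
    by_contra hcon
    push Not at hcon
    have h1 := congrArg (rr M) (hone κ₁ ⟨hκ₁, hκ₂⟩)
    rw [rr_one, rr_sum] at h1
    · have h2 : ∑ ψ ∈ S, rr M (a ψ * g ψ κ₁) = 0 := by
        refine Finset.sum_eq_zero fun ψ hψ => ?_
        have hψ1 := ((hSm ψ).1 hψ).1
        obtain ⟨h3, h4⟩ := hgred ψ hψ1 κ₁ hκ₁
        rw [rr_mul (haR ψ hψ1) h4, ← h3, hcon ψ hψ, mul_zero]
      rw [h2] at h1
      exact zero_ne_one h1
    · intro ψ hψ
      have hψ1 := ((hSm ψ).1 hψ).1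
      exact (RM M).mul_mem (haR ψ hψ1) (hgred ψ hψ1 κ₁ hκ₁).2
  obtain ⟨ψ, hψ, hne⟩ := hex
  have hψE := (hSm ψ).1 hψ
  refine ⟨ψ, hψE, fun κ hκ h0 => hne ?_⟩
  have hcl : IsCl (fun t => (Ideal.Quotient.mk M (F ψ t) : FF M)) := by
    intro x y
    exact congrArg (Ideal.Quotient.mk M) (hFc ψ hψE.1 x y)
  have h1 := H50.char_uniq hb (H50.isChar_res hκ₁) (H50.isChar_res hκ.1) hκ₂ hκ.2 hcl
  have hκ1 : κ 1 ≠ 0 := by
    obtain ⟨d, hd0, hd⟩ := irr_one hκ.1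
    rw [hd]
    exact_mod_cast hd0.ne'
  have h2 : g ψ κ = 0 := by
    have h3 := hgr ψ hψE.1 κ hκ.1
    rw [h0, mul_zero] at h3
    exact (mul_eq_zero.1 h3).resolve_left hκ1
  rw [h1]
  show res M (fun t => Ideal.Quotient.mk M (F ψ t)) κ = 0
  rw [(hgred ψ hψE.1 κ hκ.1).1, h2, rr_zero]

end Pool.Agent.PP.T5.H23
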