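import Pool.Agent.AT5.Stmts2
import Pool.Agent.Helper24_AT3.DVS
import Mathlib.GroupTheory.Transfer

/-!
# Squad AT5, row DV5: divisibility of the alternating sum
-/

open scoped BigOperators

noncomputable section

namespace Pool.Agent.PP.T5.H23

open Pool.Agent.Helper51_AWC Pool.Agent.Helper79_WRA Pool.Agent.PP Pool.Agent.PP.KF
open Pool.Agent.PP.K9 Pool.Agent.PP.K9.H97 Pool.Agent.PP.H75 Pool.Agent.PP.T3 Pool.Agent.PP.T2

attribute [local instance] Ideal.Quotient.field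

/-- a homomorphism to an abelian group under which a central element keeps most of its order -/
theorem exists_transfer {V : Type} [Group V] [Finite V] {ℓ a k : ℕ} (hℓ : ℓ.Prime)
    (hV : ∃ n, Nat.card V = ℓ ^ n) (B : Subgroup V) (hB : ∀ x ∈ B, ∀ y ∈ B, x * y = y * x)
    (hk : B.index ≤ ℓ ^ k) (u : V) (hu : ∀ v : V, v * u = u * v) (ho : orderOf u = ℓ ^ a) :
    ∃ (A : Type) (_ : CommGroup A) (ρ : V →* A), ℓ ^ (a - k) ∣ orderOf (ρ u) := by
  let iB : CommGroup B := { (inferInstance : Group B) with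
    mul_comm := fun a b => Subtype.ext (hB a a.2 b b.2) }
  have key : ∀ (k : ℕ) (g₀ : V), g₀⁻¹ * u ^ k * g₀ ∈ B → g₀⁻¹ * u ^ k * g₀ = u ^ k := by
    intro j g₀ _
    have h1 : Commute g₀ (u ^ j) := (show Commute g₀ u from hu g₀).pow_right j
    have h2 : g₀ * u ^ j = u ^ j * g₀ := h1
    rw [mul_assoc, ← h2, ← mul_assoc, inv_mul_cancel, one_mul]
  refine ⟨B, iB, MonoidHom.transfer (MonoidHom.id B), ?_⟩
  have h3 := MonoidHom.transfer_eq_pow (MonoidHom.id B) u key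
  rw [h3, MonoidHom.id_apply]
  have h4 : orderOf (⟨u ^ B.index, MonoidHom.transfer_eq_pow_aux u key⟩ : B) =
      orderOf (u ^ B.index) := Subgroup.orderOf_mk _ _
  rw [h4]
  obtain ⟨n, hn⟩ := hV
  obtain ⟨j, -, hj⟩ := (Nat.dvd_prime_pow hℓ).1 (hn ▸ B.index_dvd_card)
  rw [hj] at hk ⊢
  have hjk : j ≤ k := (Nat.pow_le_pow_iff_right hℓ.one_lt).1 hk
  rcases le_or_gt a j with haj | haj
  · have h5 : a - k = 0 := by omega
    rw [h5, pow_zero]
    exact one_dvd _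
  · have h6 : ℓ ^ j ∣ orderOf u := by
      rw [ho]
      exact pow_dvd_pow ℓ haj.le
    rw [orderOf_pow_of_dvd (pow_pos hℓ.pos j).ne' h6, ho, Nat.pow_div haj.le hℓ.pos]
    exact pow_dvd_pow ℓ (by omega)

theorem dv5 : Dv5Stmt := by
  intro ℓ _ M _ hM G _ _ hO a p k e V he hT hC χ hχ h1
  have hℓ : ℓ.Prime := Fact.out
  have hD := T3.H24.isDef_of_tp hM he hT hχ h1
  obtain ⟨u, huV, hcen, ho⟩ := hC.cen
  obtain ⟨B, -, hBc, hBi⟩ := hC.ab
  obtain ⟨A, iA, ρ, hρ⟩ := exists_transfer (V := V) (a := a) (k := k) hℓ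
    ((IsPGroup.iff_card (p := ℓ) (G := V)).1 hT.pg) (B.subgroupOf V)
    (fun x hx y hy => Subtype.ext (hBc x (Subgroup.mem_subgroupOf.1 hx) y
      (Subgroup.mem_subgroupOf.1 hy))) hBi ⟨u, huV⟩ (fun v => Subtype.ext (hcen v v.2))
    (by rw [Subgroup.orderOf_mk, ho])
  have h2 := ML.mn3_ ℓ M hM G (by rw [hO]; exact bot_le) χ hχ V hD A ρ (by
      intro r hr
      rw [hO, Subgroup.mem_bot] at hr
      have h7 : r = 1 := Subtype.ext hr
      rw [h7, map_one]) ⟨u, huV⟩ (fun d => Subtype.ext (hcen d d.2).symm)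
  rw [hO, Subgroup.card_bot, mul_one] at h2
  exact (Int.natCast_dvd_natCast.2 hρ).trans h2

end Pool.Agent.PP.T5.H23
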