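import Pool.Agent.AT5.Stmts2
import Pool.Agent.Helper24_AT2.DZA
import Pool.Agent.Helper24_AT3.DVS
import Pool.Agent.Helper2_K9.PUG
import Pool.Agent.Helper6_PP.Nco

/-!
# Squad AT5, row DZ5: the defect group modulo `O_ℓ(G)`
-/

open scoped BigOperators

noncomputable section

namespace Pool.Agent.PP.T5.H23

open Pool.Agent.Helper51_AWC Pool.Agent.Helper79_WRA Pool.Agent.PP Pool.Agent.PP.KF
open Pool.Agent.PP.K9 Pool.Agent.PP.K9.H97 Pool.Agent.PP.H75 Pool.Agent.PP.T3 Pool.Agent.PP.T2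
open Pool.Agent.Helper98_CC

attribute [local instance] Ideal.Quotient.field

theorem dz5 (hPsg : T3.PsgStmt) : Dz5Stmt := by
  intro ℓ _ M _ hM G _ _ hcen χ hχ D hD e he h1 A _ _ p hp hker
  have hℓ : ℓ.Prime := Fact.out
  have hF : GoodF ℓ (FF M) := H50.fld ℓ hℓ M hM
  have hZ : IsPGroup ℓ (opCore ℓ G) := H75.opCore_isPGroup hℓ
  have hTp := T2.H24.tp_of_isDef hM he hχ h1 hD
  have hf : IsBlk (push p e) := hPsg ℓ (FF M) hF G A p hp (by rw [hker]; exact hcen)
    (by rw [hker]; exact hZ) e he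
  have hZD : opCore ℓ G ≤ D := by
    have hn : (opCore ℓ G).Normal := H75.opCore_normal (A := G) ℓ
    have h2 : IsPGroup ℓ (opCore ℓ G ⊔ D : Subgroup G) := hZ.to_sup_of_normal_left hTp.pg
    obtain ⟨z, hz, hz0⟩ := hTp.gd
    have h3 : Gd e (opCore ℓ G ⊔ D) := by
      refine ⟨z, ?_, hz0⟩
      have h4 : opCore ℓ G ⊔ D ≤ Subgroup.centralizer ({z} : Set G) := by
        rw [sup_le_iff]
        constructor
        · intro x hx
          rw [Subgroup.mem_centralizer_singleton_iff]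
          exact (Subgroup.mem_center_iff.1 (hcen hx) z).symm
        · intro x hx
          rw [Subgroup.mem_centralizer_singleton_iff]
          exact Subgroup.mem_centralizer_iff.1 hz x hx
      rw [Subgroup.mem_centralizer_iff]
      intro x hx
      exact Subgroup.mem_centralizer_singleton_iff.1 (h4 hx)
    have h5 := Subgroup.eq_of_le_of_card_ge (le_sup_right : D ≤ opCore ℓ G ⊔ D) (hTp.mx _ h2 h3)
    rw [h5]
    exact le_sup_left
  have hcard : Nat.card (D.map p) * Nat.card (opCore ℓ G) = Nat.card D := by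
    rw [H6.card_map p D, hker, inf_eq_right.2 hZD]
  refine ⟨hf, hZD, hcard, ?_⟩
  have hkp : IsPGroup ℓ p.ker := by rw [hker]; exact hZ
  refine ⟨hTp.pg.map p, ?_, ?_⟩
  · exact (_root_.Pool.Agent.PP.K9.H02.pug ℓ (FF M) hF G A p hp hkp e he.1 D
      (by rw [hker]; exact hZD) hTp.pg).1 hTp.gd
  · intro Q' hQ' hQ'g
    have h2 : IsPGroup ℓ (Q'.comap p) := hQ'.comap_of_ker_isPGroup p hkp
    have h3 : p.ker ≤ Q'.comap p := fun x hx => by
      rw [Subgroup.mem_comap, MonoidHom.mem_ker.1 hx]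
      exact Q'.one_mem
    have h4 : (Q'.comap p).map p = Q' := Subgroup.map_comap_eq_self_of_surjective hp Q'
    have h5 := (_root_.Pool.Agent.PP.K9.H02.pug ℓ (FF M) hF G A p hp hkp e he.1 (Q'.comap p) h3 h2).2
      (by rw [h4]; exact hQ'g)
    have h6 := hTp.mx _ h2 h5
    rw [H75.card_comap hp Q', hker, ← hcard, mul_comm] at h6
    exact Nat.le_of_mul_le_mul_right h6 Nat.card_pos

end Pool.Agent.PP.T5.H23
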